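import Pool.Agent.helper64.D2.SpecR

set_option autoImplicit false

open Filter Topology
open scoped commutatorElement

namespace Pool.Agent.helper64.D2

theorem RC1_a (t : ℝ) : |Real.sinh t - t| ≤ Real.cosh t - 1 := by
  have h1 : t + 1 ≤ Real.exp t := Real.add_one_le_exp t
  have h2 : -t + 1 ≤ Real.exp (-t) := Real.add_one_le_exp (-t)
  have h3 := Real.cosh_add_sinh t
  have h4 := Real.cosh_sub_sinh t
  rw [abs_le]
  constructor <;> linarith

theorem RC1 : RC1_stmt := by
  refine ⟨RC1_a, fun x y => ?_⟩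
  have hx := RC1_a x
  have hy := RC1_a y
  have h : (Real.sinh x - x) * (Real.sinh y - y) ≤ (Real.cosh x - 1) * (Real.cosh y - 1) := by
    calc (Real.sinh x - x) * (Real.sinh y - y) ≤ |(Real.sinh x - x) * (Real.sinh y - y)| := le_abs_self _
      _ = |Real.sinh x - x| * |Real.sinh y - y| := abs_mul _ _
      _ ≤ (Real.cosh x - 1) * (Real.cosh y - 1) :=
        mul_le_mul hx hy (abs_nonneg _) (le_trans (abs_nonneg _) hx)
  rw [Real.cosh_add]
  nlinarith [h]

end Pool.Agent.helper64.D2
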