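import Pool.Agent.helper64.D2.SpecD

set_option autoImplicit false

open Filter Topology
open scoped commutatorElement

namespace Pool.Agent.helper64.D2

theorem THB_zero_d2 (x : ℝ) : d2 (fun _ : ℝ => (0 : ℝ)) x = 0 := by
  unfold d2
  simp

theorem THB_zero_st (p q a L : ℝ) (ha : 0 ≤ a) (hL : 0 ≤ L) : St (fun _ : ℝ => (0 : ℝ)) p q a L := by
  refine ⟨contDiff_const, fun _ _ => rfl, fun x => ?_, fun x y => ?_⟩
  · rw [THB_zero_d2, abs_zero]; exact ha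
  · rw [THB_zero_d2, THB_zero_d2, sub_zero, abs_zero]; exact mul_nonneg hL (abs_nonneg _)

theorem THB_zero_rep : Rep 1 (fun _ : ℝ => (0 : ℝ)) := by
  intro x
  rw [ev_one, add_zero]

theorem THB_place (hPLC : PLC_stmt) (B : ℕ) (hmono : StrictMono (bs B)) (F : ℕ → DD) :
    place (fun n => 160 * bs B n) (place (fun i => 2 ^ (i + 1)) F) = place (fun i => 160 * bs B (2 ^ (i + 1))) F := by
  have h2 : StrictMono (fun i : ℕ => 2 ^ (i + 1)) := by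
    intro i j hij
    exact Nat.pow_lt_pow_right (by norm_num) (by omega)
  have h1 : StrictMono (fun n => 160 * bs B n) := by
    intro i j hij
    have := hmono hij
    show 160 * bs B i < 160 * bs B j
    omega
  have h3 : StrictMono (fun i : ℕ => 160 * bs B (2 ^ (i + 1))) := by
    intro i j hij
    exact h1 (h2 hij)
  obtain ⟨a1, a2⟩ := hPLC _ (place (fun i => 2 ^ (i + 1)) F) h1
  obtain ⟨b1, b2⟩ := hPLC _ F h2
  obtain ⟨c1, c2⟩ := hPLC _ F h3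
  funext m
  by_cases hm : ∃ i, 160 * bs B (2 ^ (i + 1)) = m
  · obtain ⟨i, rfl⟩ := hm
    exact (a1 (2 ^ (i + 1))).trans ((b1 i).trans (c1 i).symm)
  · push Not at hm
    rw [c2 m hm]
    by_cases hn : ∃ n, 160 * bs B n = m
    · obtain ⟨n, rfl⟩ := hn
      refine (a1 n).trans (b2 n ?_)
      intro i hi
      apply hm i
      show 160 * bs B (2 ^ (i + 1)) = 160 * bs B n
      have hi' : 2 ^ (i + 1) = n := hi
      rw [hi']
    · push Not at hn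
      exact a2 m hn

theorem THB_num (b i : ℕ) (hb : 1 ≤ b) (h : 2 ^ (2 ^ (i + 1)) ≤ b ^ 8) :
    1 / (b : ℝ) ^ 40 * ((160 * b : ℕ) : ℝ) ^ 4 * 2 ^ i ≤ 160 ^ 4 := by
  have hi : 2 ^ i ≤ b ^ 8 := by
    refine le_trans (Nat.pow_le_pow_right (by norm_num) ?_) h
    have := Nat.lt_two_pow_self (n := i)
    have h2 : 2 ^ i ≤ 2 ^ (i + 1) := Nat.pow_le_pow_right (by norm_num) (by omega)
    omega
  have hi' : (2 : ℝ) ^ i ≤ (b : ℝ) ^ 8 := by exact_mod_cast hi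
  have hb' : (1 : ℝ) ≤ (b : ℝ) := by exact_mod_cast hb
  have hbp : (0 : ℝ) < (b : ℝ) ^ 40 := by positivity
  push_cast
  rw [one_div, inv_mul_eq_div, div_mul_eq_mul_div, div_le_iff₀ hbp]
  have e1 : (160 * (b : ℝ)) ^ 4 * 2 ^ i ≤ (160 * (b : ℝ)) ^ 4 * (b : ℝ) ^ 8 :=
    mul_le_mul_of_nonneg_left hi' (by positivity)
  have e2 : (160 * (b : ℝ)) ^ 4 * (b : ℝ) ^ 8 = 160 ^ 4 * (b : ℝ) ^ 12 := by ring
  have e3 : (b : ℝ) ^ 12 ≤ (b : ℝ) ^ 40 := pow_le_pow_right₀ hb' (by norm_num)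
  have e4 : (160 : ℝ) ^ 4 * (b : ℝ) ^ 12 ≤ 160 ^ 4 * (b : ℝ) ^ 40 :=
    mul_le_mul_of_nonneg_left e3 (by positivity)
  linarith

theorem THB_placeF (hHTH : HTH_stmt) (hRSL : RSL_stmt) (hBSQ : BSQ_stmt) (hSLQ : SLQ_stmt) (hPLC : PLC_stmt)
    (hSZC : SZC_stmt) : ∃ B0 : ℕ, ∀ B : ℕ, B0 ≤ B → ∀ (F : ℕ → DD) (XF : ℕ → ℝ → ℝ),
    (∀ i, Rep (F i) (XF i) ∧ St (XF i) (3 / 10) (6 / 10) (1 / (bs B (2 ^ (i + 1)) : ℝ) ^ 40)
      (2 ^ (2 * bs B (2 ^ (i + 1))))) → place (fun i => ks B (i + 1) - 1) F ∈ K0 := by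
  obtain ⟨B1, hB1⟩ := hHTH
  refine ⟨B1 + 100, ?_⟩
  intro B hB F XF hF
  obtain ⟨s1, _, s3⟩ := hSLQ B (by omega)
  obtain ⟨q1, q2, _, q4, _, _, _, _⟩ := hBSQ B (by omega)
  have hmem : place (fun i => 160 * bs B (2 ^ (i + 1))) F ∈ K0 := by
    rw [← THB_place hPLC B q1 F]
    have h2 : StrictMono (fun i : ℕ => 2 ^ (i + 1)) := by
      intro i j hij
      exact Nat.pow_lt_pow_right (by norm_num) (by omega)
    obtain ⟨b1, b2⟩ := hPLC _ F h2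
    have hex : ∀ n, ∃ X : ℝ → ℝ, Rep (place (fun i => 2 ^ (i + 1)) F n) X ∧
        St X (3 / 10) (6 / 10) (1 / (bs B n : ℝ) ^ 40) (2 ^ (2 * bs B n)) := by
      intro n
      by_cases hn : ∃ i, 2 ^ (i + 1) = n
      · obtain ⟨i, rfl⟩ := hn
        have e := b1 i
        refine ⟨XF i, ?_, (hF i).2⟩
        have e' : place (fun i => 2 ^ (i + 1)) F (2 ^ (i + 1)) = F i := e
        rw [e']
        exact (hF i).1
      · push Not at hn
        refine ⟨fun _ => 0, ?_, THB_zero_st _ _ _ _ (by positivity) (by positivity)⟩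
        rw [b2 n hn]
        exact THB_zero_rep
    choose X hX using hex
    exact hB1 B (by omega) (place (fun i => 2 ^ (i + 1)) F) X hX
  have hks : ∀ i, 4 < ks B (i + 1) := by
    intro i
    have h := s1 (show 0 < i + 1 by omega)
    have e : ks B 0 = 4 := rfl
    omega
  refine hRSL (fun i => ks B (i + 1) - 1) (fun i => 160 * bs B (2 ^ (i + 1))) F
    (fun i => 1 / (bs B (2 ^ (i + 1)) : ℝ) ^ 40) (160 ^ 4) ?_ ?_ ?_ ?_ ?_ ?_ ?_ hmem
  · intro i j hij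
    have h := s1 (show i + 1 < j + 1 by omega)
    have h1 := hks i
    show ks B (i + 1) - 1 < ks B (j + 1) - 1
    omega
  · intro i j hij
    have h3 : 2 ^ (i + 1) < 2 ^ (j + 1) := Nat.pow_lt_pow_right (by norm_num) (by omega)
    have h := q1 h3
    show 160 * bs B (2 ^ (i + 1)) < 160 * bs B (2 ^ (j + 1))
    omega
  · have := hks 0
    show 2 ≤ ks B (0 + 1) - 1
    omega
  · intro i
    have := s3 i
    show ks B (i + 1) - 1 ≤ 160 * bs B (2 ^ (i + 1))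
    omega
  · intro i x
    obtain ⟨hr, hs⟩ := hF i
    rw [(hSZC.1 (F i) (XF i) hr).2.2.2 x]
    exact hs.2.2.1 x
  · intro i
    show 0 ≤ 1 / (bs B (2 ^ (i + 1)) : ℝ) ^ 40
    positivity
  · intro i
    refine THB_num (bs B (2 ^ (i + 1))) i ?_ (q4 (2 ^ (i + 1)))
    have h := q2 (2 ^ (i + 1))
    have h2 : 1 ≤ B := by omega
    exact (h2.trans (Nat.le_add_left B _)).trans h

theorem THB (hTHA : THA_stmt) (hHTH : HTH_stmt) (hRSL : RSL_stmt) (hLPK : LPK_stmt) (hKRS : KRS_stmt)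
    (hKSG : KSG_stmt) (hBSQ : BSQ_stmt) (hSLQ : SLQ_stmt) (hPLC : PLC_stmt) (hADM : ADM_stmt)
    (hSZC : SZC_stmt) : THB_stmt := by
  obtain ⟨B1, hB1⟩ := hTHA
  obtain ⟨B2, hB2⟩ := THB_placeF hHTH hRSL hBSQ hSLQ hPLC hSZC
  refine ⟨B1 + B2, ?_⟩
  intro B hB f X w hf hX hX0 hXa hw hlim
  obtain ⟨V, U, W, F, M0, X0, XF, hV, hU, hW, hM0, hSt0, hF, hE⟩ :=
    hB1 B (by omega) f X w hf hX hX0 hXa hw hlim
  have hP : place (fun i => ks B (i + 1) - 1) F ∈ K0 := hB2 B (by omega) F XF hF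
  set y : ℕ → DD := Pi.mulSingle 2 f * Pi.mulSingle 3 M0⁻¹ * place (fun i => ks B (i + 1) - 1) F * ⁅U, W⁆ with hy
  obtain ⟨ad1, ad2, ad3, _, _⟩ := hADM
  have hy' : y = (sh V)⁻¹ * V := by
    rw [eq_inv_mul_iff_mul_eq]
    exact hE.symm
  have hAy : Adm y := by
    rw [hy']
    exact ad1 _ _ (ad2 _ (ad3 _ hV)) hV
  have hyK : y ∈ K0 := by
    have h := hKRS 1 y V hV hAy (by rw [one_mul]; exact hE)
    rw [one_mul] at h
    exact (Subgroup.inv_mem_iff K0).mp h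
  have hc : ⁅U, W⁆ ∈ K0 := by
    apply Subgroup.subset_closure
    left
    exact ⟨U, W, hU, hW, commutatorElement_def U W⟩
  have hM2 : Pi.mulSingle 2 M0 ∈ K0 := by
    refine hLPK M0 X0 (2 ^ (bs B 1)) hM0 ?_
    obtain ⟨t1, t2, t3, t4⟩ := hSt0
    refine ⟨t1, fun x hx => t2 x ?_, fun x => (t3 x).trans (by norm_num), t4⟩
    intro hx2
    apply hx
    exact ⟨by linarith [hx2.1], by linarith [hx2.2]⟩
  have hM3 : Pi.mulSingle 3 M0⁻¹ ∈ K0 := by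
    have h := (hKSG 3 M0 (by norm_num)).mpr hM2
    rw [Pi.mulSingle_inv]
    exact (Subgroup.inv_mem_iff K0).mpr h
  have hfin : Pi.mulSingle 2 f = y * ⁅U, W⁆⁻¹ * (place (fun i => ks B (i + 1) - 1) F)⁻¹ * (Pi.mulSingle 3 M0⁻¹)⁻¹ := by
    rw [hy]
    group
  rw [hfin]
  exact Subgroup.mul_mem _ (Subgroup.mul_mem _ (Subgroup.mul_mem _ hyK (Subgroup.inv_mem _ hc))
    (Subgroup.inv_mem _ hP)) (Subgroup.inv_mem _ hM3)

end Pool.Agent.helper64.D2
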